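import Pool.Agent.KS6_32.CG.D
import Pool.Graph.R_seed8.H632R2.Laman

/-!
# Motions of cones
-/

namespace Pool.Agent.KS6_32.CG

open Matrix Module

theorem exists_generic (V : Type) [Fintype V] (d : ℕ) : ∃ p : V → Fin d → ℝ, Generic p := by
  obtain ⟨z, hz⟩ := Pool.Agent.H632R2.Laman.exists_algInd (V × Fin d)
  exact ⟨fun v k => z (v, k), hz⟩

theorem Generic.comp {V W : Type} {d : ℕ} {p : V → Fin d → ℝ} (hp : Generic p) (e : W ≃ V) :
    Generic (fun w => p (e w)) := by
  unfold Generic at hp ⊢
  exact AlgebraicIndependent.comp hp (fun c : W × Fin d => (e c.1, c.2)) (by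
    rintro ⟨a, b⟩ ⟨a', b'⟩ h
    simp only [Prod.mk.injEq, EmbeddingLike.apply_eq_iff_eq] at h
    exact Prod.ext h.1 h.2)

theorem Generic.ne {V : Type} {d : ℕ} {p : V → Fin d → ℝ} (hp : Generic p) {u v : V}
    (huv : u ≠ v) (k : Fin d) : p u k ≠ p v k := by
  intro h
  have h1 := AlgebraicIndependent.injective hp (a₁ := (u, k)) (a₂ := (v, k)) h
  exact huv (Prod.mk.inj h1).1

section Iso

variable {V W : Type} {d : ℕ}

theorem finrank_Z_comap (e : W ≃ V) (G : SimpleGraph V) (p : V → Fin d → ℝ) :
    finrank ℝ (Z (G.comap e) (fun w => p (e w))) = finrank ℝ (Z G p) := by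
  have h : Z (G.comap e) (fun w => p (e w)) = (Z G p).map
      ((LinearEquiv.funCongrLeft ℝ (Fin d → ℝ) e : (V → Fin d → ℝ) ≃ₗ[ℝ] (W → Fin d → ℝ)) :
        (V → Fin d → ℝ) →ₗ[ℝ] (W → Fin d → ℝ)) := by
    ext s
    rw [Submodule.mem_map]
    constructor
    · intro hs
      refine ⟨fun v => s (e.symm v), ?_, ?_⟩
      · intro u v huv
        have h1 := hs (e.symm u) (e.symm v) (by
          rw [SimpleGraph.comap_adj]
          simpa using huv)
        simpa using h1
      · funext w
        simp [LinearEquiv.funCongrLeft]
    · rintro ⟨x, hx, rfl⟩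
      intro u v huv
      exact hx (e u) (e v) huv
  rw [h]
  exact LinearEquiv.finrank_map_eq _ _

end Iso

section Cone

variable {V : Type} [Fintype V] {d : ℕ}

/-- motions of the base give motions of the cone -/
theorem cone_ge (K : SimpleGraph (Option V)) (p : Option V → Fin (d + 1) → ℝ)
    (hp : ∀ u, p (some u) (Fin.last d) - p none (Fin.last d) ≠ 0) :
    ∃ q : V → Fin d → ℝ, finrank ℝ (Z (K.comap some) q) + (d + 1) ≤ finrank ℝ (Z K p) := by
  set α : V → ℝ := fun u => p (some u) (Fin.last d) - p none (Fin.last d) with hα
  set q : V → Fin d → ℝ := fun u k => (p (some u) k.castSucc - p none k.castSucc) / α u with hq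
  have hpq : ∀ u (k : Fin d), p (some u) k.castSucc - p none k.castSucc = α u * q u k := by
    intro u k
    exact (mul_div_cancel₀ _ (hp u)).symm
  refine ⟨q, ?_⟩
  let F : ((V → Fin d → ℝ) × (Fin (d + 1) → ℝ)) →ₗ[ℝ] (Option V → Fin (d + 1) → ℝ) :=
    { toFun := fun x o => Option.elim o x.2 (fun u => x.2 +
        Fin.snoc (α := fun _ => ℝ) (fun k => α u * x.1 u k) (-∑ k, q u k * (α u * x.1 u k)))
      map_add' := by
        intro x y
        funext o
        rcases o with _ | u
        · rfl
        · funext j
          refine Fin.lastCases ?_ (fun k => ?_) j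
          · simp only [Option.elim, Prod.fst_add, Prod.snd_add, Pi.add_apply, Fin.snoc_last]
            have : ∑ k, q u k * (α u * (x.1 u k + y.1 u k)) =
                ∑ k, q u k * (α u * x.1 u k) + ∑ k, q u k * (α u * y.1 u k) := by
              rw [← Finset.sum_add_distrib]
              exact Finset.sum_congr rfl fun k _ => by ring
            rw [this]
            ring
          · simp only [Option.elim, Prod.fst_add, Prod.snd_add, Pi.add_apply, Fin.snoc_castSucc]
            ring
      map_smul' := by
        intro c x
        funext o
        rcases o with _ | u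
        · rfl
        · funext j
          refine Fin.lastCases ?_ (fun k => ?_) j
          · simp only [Option.elim, Prod.smul_fst, Prod.smul_snd, Pi.add_apply, Pi.smul_apply,
              Fin.snoc_last, smul_eq_mul, RingHom.id_apply]
            have : ∑ k, q u k * (α u * (c * x.1 u k)) = c * ∑ k, q u k * (α u * x.1 u k) := by
              rw [Finset.mul_sum]
              exact Finset.sum_congr rfl fun k _ => by ring
            rw [this]
            ring
          · simp only [Option.elim, Prod.smul_fst, Prod.smul_snd, Pi.add_apply, Pi.smul_apply,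
              Fin.snoc_castSucc, smul_eq_mul, RingHom.id_apply]
            ring }
  have hFn : ∀ x, F x none = x.2 := fun _ => rfl
  have hFs : ∀ x u (k : Fin d), F x (some u) k.castSucc = x.2 k.castSucc + α u * x.1 u k := by
    intro x u k
    change x.2 k.castSucc + Fin.snoc (α := fun _ => ℝ) (fun k => α u * x.1 u k)
      (-∑ k, q u k * (α u * x.1 u k)) k.castSucc = _
    rw [Fin.snoc_castSucc]
  have hFl : ∀ x u, F x (some u) (Fin.last d) = x.2 (Fin.last d) -
      ∑ k, q u k * (α u * x.1 u k) := by
    intro x u
    change x.2 (Fin.last d) + Fin.snoc (α := fun _ => ℝ) (fun k => α u * x.1 u k)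
      (-∑ k, q u k * (α u * x.1 u k)) (Fin.last d) = _
    rw [Fin.snoc_last, sub_eq_add_neg]
  -- motions are mapped to motions
  have hFm : ∀ x, x.1 ∈ Z (K.comap some) q → F x ∈ Z K p := by
    intro x hx
    have hns : ∀ u, ∑ k, (p (some u) k - p none k) * (F x (some u) k - F x none k) = 0 := by
      intro u
      rw [Fin.sum_univ_castSucc, hFl, hFn]
      have h1 : ∀ k : Fin d, (p (some u) k.castSucc - p none k.castSucc) *
          (F x (some u) k.castSucc - x.2 k.castSucc) = α u * (q u k * (α u * x.1 u k)) := by
        intro k
        rw [hFs, hpq]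
        ring
      rw [Finset.sum_congr rfl fun k _ => h1 k, ← Finset.mul_sum]
      change _ + α u * _ = 0
      ring
    intro a b hab
    rcases a with _ | u
    · rcases b with _ | v
      · exact absurd hab (K.irrefl)
      · rw [← hns v]
        exact Finset.sum_congr rfl fun k _ => by ring
    · rcases b with _ | v
      · exact hns u
      · have hx' := hx u v hab
        rw [Fin.sum_univ_castSucc, hFl, hFl]
        have h1 : ∀ k : Fin d, (p (some u) k.castSucc - p (some v) k.castSucc) *
            (F x (some u) k.castSucc - F x (some v) k.castSucc) =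
            (α u * q u k - α v * q v k) * (α u * x.1 u k - α v * x.1 v k) := by
          intro k
          rw [hFs, hFs]
          have h2 := hpq u k
          have h3 := hpq v k
          rw [show p (some u) k.castSucc - p (some v) k.castSucc = α u * q u k - α v * q v k by
            linear_combination h2 - h3]
          ring
        have h2 : p (some u) (Fin.last d) - p (some v) (Fin.last d) = α u - α v := by
          rw [hα]
          ring
        rw [Finset.sum_congr rfl fun k _ => h1 k, h2]
        have h3 : ∑ k, (α u * q u k - α v * q v k) * (α u * x.1 u k - α v * x.1 v k) =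
            (α u - α v) * (∑ k, q u k * (α u * x.1 u k) - ∑ k, q v k * (α v * x.1 v k)) +
            α u * α v * ∑ k, (q u k - q v k) * (x.1 u k - x.1 v k) := by
          rw [← Finset.sum_sub_distrib, Finset.mul_sum, Finset.mul_sum, ← Finset.sum_add_distrib]
          exact Finset.sum_congr rfl fun k _ => by ring
        rw [h3, hx', mul_zero]
        ring
  let F' : (Z (K.comap some) q × (Fin (d + 1) → ℝ)) →ₗ[ℝ] Z K p :=
    { toFun := fun x => ⟨F (x.1.1, x.2), hFm _ x.1.2⟩
      map_add' := by
        intro x y
        apply Subtype.ext
        exact F.map_add (x.1.1, x.2) (y.1.1, y.2)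
      map_smul' := by
        intro c x
        apply Subtype.ext
        exact F.map_smul c (x.1.1, x.2) }
  have hinj : Function.Injective F' := by
    rw [← LinearMap.ker_eq_bot, LinearMap.ker_eq_bot']
    intro x hx
    have h1 : F (x.1.1, x.2) = 0 := congrArg Subtype.val hx
    have h2 : x.2 = 0 := by
      rw [← hFn (x.1.1, x.2), h1]
      rfl
    have h3 : x.1.1 = 0 := by
      funext u k
      have h4 := hFs (x.1.1, x.2) u k
      rw [h1] at h4
      simp only [h2, Pi.zero_apply, zero_add] at h4
      rcases mul_eq_zero.1 h4.symm with h5 | h5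
      · exact absurd h5 (hp u)
      · simpa using h5
    exact Prod.ext (Subtype.ext h3) h2
  have h4 := LinearMap.finrank_le_finrank_of_injective hinj
  rw [Module.finrank_prod, Module.finrank_fintype_fun_eq_card, Fintype.card_fin] at h4
  exact h4

/-- motions of the cone give motions of the base -/
theorem cone_le (K : SimpleGraph (Option V)) (q : V → Fin d → ℝ) (β : V → ℝ)
    (hβ : ∀ u, β u ≠ 0)
    (hT : ∀ (s : V → Fin d → ℝ) (t : V → ℝ),
      (∀ u v, K.Adj (some u) (some v) →
        ∑ k, (q u k - q v k) * (s u k - s v k) = (β u - β v) * (t u - t v)) →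
      (∀ u, K.Adj none (some u) → t u = 0) → t = 0) :
    ∃ p : Option V → Fin (d + 1) → ℝ,
      finrank ℝ (Z K p) ≤ finrank ℝ (Z (K.comap some) q) + (d + 1) := by
  let p : Option V → Fin (d + 1) → ℝ := fun o => Option.elim o 0 (fun u =>
    Fin.snoc (α := fun _ => ℝ) (fun k => q u k / β u) (1 / β u))
  have hpn : ∀ k, p none k = 0 := fun _ => rfl
  have hps : ∀ u (k : Fin d), p (some u) k.castSucc = q u k / β u := by
    intro u k
    change Fin.snoc (α := fun _ => ℝ) (fun k => q u k / β u) (1 / β u) k.castSucc = _
    rw [Fin.snoc_castSucc]
  have hpl : ∀ u, p (some u) (Fin.last d) = 1 / β u := by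
    intro u
    change Fin.snoc (α := fun _ => ℝ) (fun k => q u k / β u) (1 / β u) (Fin.last d) = _
    rw [Fin.snoc_last]
  refine ⟨p, ?_⟩
  let s : (Option V → Fin (d + 1) → ℝ) → V → Fin d → ℝ := fun m u k =>
    β u * (m (some u) k.castSucc - m none k.castSucc)
  let t : (Option V → Fin (d + 1) → ℝ) → V → ℝ := fun m u =>
    ∑ k : Fin d, q u k * (m (some u) k.castSucc - m none k.castSucc) +
      (m (some u) (Fin.last d) - m none (Fin.last d))
  have ht : ∀ m ∈ Z K p, t m = 0 := by
    intro m hm
    apply hT (s m)
    · intro u v huv
      have h1 := hm _ _ huv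
      rw [Fin.sum_univ_castSucc, hpl, hpl] at h1
      simp_rw [hps] at h1
      have hu := hβ u
      have hv := hβ v
      have h2 : β u * β v * (∑ k : Fin d, (q u k / β u - q v k / β v) *
          (m (some u) k.castSucc - m (some v) k.castSucc) +
          (1 / β u - 1 / β v) * (m (some u) (Fin.last d) - m (some v) (Fin.last d))) = 0 := by
        rw [h1, mul_zero]
      have h3 : β u * β v * (∑ k : Fin d, (q u k / β u - q v k / β v) *
          (m (some u) k.castSucc - m (some v) k.castSucc) +
          (1 / β u - 1 / β v) * (m (some u) (Fin.last d) - m (some v) (Fin.last d))) =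
          ∑ k : Fin d, (q u k - q v k) * (s m u k - s m v k) - (β u - β v) * (t m u - t m v) := by
        have e1 : β u * β v * ((1 / β u - 1 / β v) *
            (m (some u) (Fin.last d) - m (some v) (Fin.last d))) =
            (β v - β u) * (m (some u) (Fin.last d) - m (some v) (Fin.last d)) := by
          field_simp
        have e2 : β u * β v * ∑ k : Fin d, (q u k / β u - q v k / β v) *
            (m (some u) k.castSucc - m (some v) k.castSucc) =
            ∑ k : Fin d, (β v * q u k - β u * q v k) *
              (m (some u) k.castSucc - m (some v) k.castSucc) := by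
          rw [Finset.mul_sum]
          refine Finset.sum_congr rfl fun k _ => ?_
          field_simp
        have e3 : (β u - β v) * (t m u - t m v) =
            ∑ k : Fin d, (β u - β v) * (q u k * (m (some u) k.castSucc - m none k.castSucc) -
              q v k * (m (some v) k.castSucc - m none k.castSucc)) +
            (β u - β v) * (m (some u) (Fin.last d) - m (some v) (Fin.last d)) := by
          rw [← Finset.mul_sum, Finset.sum_sub_distrib]
          simp only [t]
          ring
        rw [mul_add, e1, e2, e3, sub_add_eq_sub_sub, ← Finset.sum_sub_distrib]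
        have e4 : ∀ k : Fin d, (q u k - q v k) * (s m u k - s m v k) -
            (β u - β v) * (q u k * (m (some u) k.castSucc - m none k.castSucc) -
              q v k * (m (some v) k.castSucc - m none k.castSucc)) =
            (β v * q u k - β u * q v k) *
              (m (some u) k.castSucc - m (some v) k.castSucc) := by
          intro k
          simp only [s]
          ring
        rw [Finset.sum_congr rfl fun k _ => e4 k]
        ring
      rw [h3] at h2
      exact sub_eq_zero.1 h2
    · intro u hu
      have h1 := hm _ _ hu
      rw [Fin.sum_univ_castSucc, hpl] at h1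
      simp_rw [hps, hpn] at h1
      have h2 : β u * (∑ k : Fin d, (0 - q u k / β u) *
          (m none k.castSucc - m (some u) k.castSucc) +
          (0 - 1 / β u) * (m none (Fin.last d) - m (some u) (Fin.last d))) = 0 := by
        rw [h1, mul_zero]
      rw [← h2]
      simp only [t]
      rw [mul_add, Finset.mul_sum]
      congr 1
      · refine Finset.sum_congr rfl fun k _ => ?_
        field_simp [hβ u]
        ring
      · field_simp [hβ u]
        ring
  have hs : ∀ m ∈ Z K p, s m ∈ Z (K.comap some) q := by
    intro m hm u v huv
    have h1 := hm _ _ huv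
    have h5 := ht m hm
    have hu := hβ u
    have hv := hβ v
    have htu : t m u = 0 := congrFun h5 u
    have htv : t m v = 0 := congrFun h5 v
    rw [Fin.sum_univ_castSucc, hpl, hpl] at h1
    simp_rw [hps] at h1
    simp only [t] at htu htv
    have h2 : β u * β v * (∑ k : Fin d, (q u k / β u - q v k / β v) *
        (m (some u) k.castSucc - m (some v) k.castSucc) +
        (1 / β u - 1 / β v) * (m (some u) (Fin.last d) - m (some v) (Fin.last d))) = 0 := by
      rw [h1, mul_zero]
    have e1 : β u * β v * ((1 / β u - 1 / β v) *
        (m (some u) (Fin.last d) - m (some v) (Fin.last d))) =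
        (β v - β u) * (m (some u) (Fin.last d) - m (some v) (Fin.last d)) := by
      field_simp
    have e2 : β u * β v * ∑ k : Fin d, (q u k / β u - q v k / β v) *
        (m (some u) k.castSucc - m (some v) k.castSucc) =
        ∑ k : Fin d, (β v * q u k - β u * q v k) *
          (m (some u) k.castSucc - m (some v) k.castSucc) := by
      rw [Finset.mul_sum]
      refine Finset.sum_congr rfl fun k _ => ?_
      field_simp
    have e4 : ∀ k : Fin d, (q u k - q v k) * (s m u k - s m v k) =
        (β u - β v) * (q u k * (m (some u) k.castSucc - m none k.castSucc) -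
          q v k * (m (some v) k.castSucc - m none k.castSucc)) +
        (β v * q u k - β u * q v k) *
          (m (some u) k.castSucc - m (some v) k.castSucc) := by
      intro k
      simp only [s]
      ring
    rw [mul_add, e1, e2] at h2
    rw [Finset.sum_congr rfl fun k _ => e4 k, Finset.sum_add_distrib, ← Finset.mul_sum,
      Finset.sum_sub_distrib]
    linear_combination h2 + (β u - β v) * htu - (β u - β v) * htv
  let F : Z K p →ₗ[ℝ] (Z (K.comap some) q × (Fin (d + 1) → ℝ)) :=
    { toFun := fun m => (⟨s m.1, hs m.1 m.2⟩, m.1 none)
      map_add' := by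
        intro x y
        refine Prod.ext (Subtype.ext ?_) rfl
        funext u k
        change β u * ((x.1 (some u) k.castSucc + y.1 (some u) k.castSucc) -
          (x.1 none k.castSucc + y.1 none k.castSucc)) =
          β u * (x.1 (some u) k.castSucc - x.1 none k.castSucc) +
          β u * (y.1 (some u) k.castSucc - y.1 none k.castSucc)
        ring
      map_smul' := by
        intro c x
        refine Prod.ext (Subtype.ext ?_) rfl
        funext u k
        change β u * (c * x.1 (some u) k.castSucc - c * x.1 none k.castSucc) =
          c * (β u * (x.1 (some u) k.castSucc - x.1 none k.castSucc))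
        ring }
  have hinj : Function.Injective F := by
    rw [← LinearMap.ker_eq_bot, LinearMap.ker_eq_bot']
    intro m hm
    have h1 : s m.1 = 0 := congrArg (fun x => x.1.1) hm
    have h2 : m.1 none = 0 := congrArg (fun x => x.2) hm
    apply Subtype.ext
    funext o
    rcases o with _ | u
    · exact h2
    · have h3 : ∀ k : Fin d, m.1 (some u) k.castSucc = 0 := by
        intro k
        have h4 : β u * (m.1 (some u) k.castSucc - m.1 none k.castSucc) = 0 :=
          congrFun (congrFun h1 u) k
        rw [h2] at h4
        rcases mul_eq_zero.1 h4 with h5 | h5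
        · exact absurd h5 (hβ u)
        · simpa using h5
      funext j
      refine Fin.lastCases ?_ (fun k => ?_) j
      · have h5 : t m.1 u = 0 := congrFun (ht m.1 m.2) u
        simp only [t, h3, h2, Pi.zero_apply, sub_zero, mul_zero, Finset.sum_const_zero,
          zero_add] at h5
        exact h5
      · exact h3 k
  have h4 := LinearMap.finrank_le_finrank_of_injective hinj
  rw [Module.finrank_prod, Module.finrank_fintype_fun_eq_card, Fintype.card_fin] at h4
  exact h4

end Cone

end Pool.Agent.KS6_32.CG
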