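import Mathlib

/-!
# Generic rigidity matroids in all dimensions: definitions

The rigidity matrix, rigidity in `ℝ^d` and the co-girth of the generic `d`-dimensional rigidity
matroid of a finite simple graph.
-/

namespace Pool.Agent.KS6_32.CG

open Matrix Module

/-- The rigidity matrix `R(G, p)` of the graph `G` at the realization `p : V → ℝ^d`: one row per
edge, `d` columns per vertex.  In the row of the edge `e`, the `d` columns of an endpoint `w` of
`e` hold `p(w) - p(w')`, where `w'` is the other endpoint of `e`; all other entries are `0`. -/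
noncomputable def rigidityMatrix {V : Type} [DecidableEq V] {d : ℕ} (G : SimpleGraph V)
    (p : V → Fin d → ℝ) : Matrix G.edgeSet (V × Fin d) ℝ :=
  fun e c => if h : c.1 ∈ e.1 then p c.1 c.2 - p (Sym2.Mem.other h) c.2 else 0

/-- A realization is generic if its `d|V|` coordinates are algebraically independent over `ℚ`. -/
def Generic {V : Type} {d : ℕ} (p : V → Fin d → ℝ) : Prop :=
  AlgebraicIndependent ℚ (fun c : V × Fin d => p c.1 c.2)

/-- `G` is rigid in `ℝ^d`: at (every) generic realization, the rank of the rigidity matrix is at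
least `binom(|V|, 2)` if `|V| ≤ d`, and at least `d |V| - binom(d + 1, 2)` if `|V| > d`. -/
def Rigid (d : ℕ) {V : Type} [Fintype V] [DecidableEq V] (G : SimpleGraph V) : Prop :=
  ∀ p : V → Fin d → ℝ, Generic p →
    (if Fintype.card V ≤ d then (Fintype.card V).choose 2
      else d * Fintype.card V - (d + 1).choose 2) ≤ (rigidityMatrix G p).rank

/-- The co-girth of the generic `d`-dimensional rigidity matroid: the least size of a set `F` of
edges such that `G - F` is not rigid in `ℝ^d`. -/
noncomputable def cogirth (d : ℕ) {V : Type} [Fintype V] [DecidableEq V] (G : SimpleGraph V) :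
    ℕ :=
  sInf {k | ∃ F : Finset (Sym2 V), (F : Set (Sym2 V)) ⊆ G.edgeSet ∧
    ¬ Rigid d (G.deleteEdges (F : Set (Sym2 V))) ∧ F.card = k}

/-! ### Infinitesimal motions -/

section Motions

variable {V : Type} {d : ℕ}

/-- the space of infinitesimal motions -/
def Z (G : SimpleGraph V) (p : V → Fin d → ℝ) : Submodule ℝ (V → Fin d → ℝ) where
  carrier := {s | ∀ u v, G.Adj u v → ∑ k, (p u k - p v k) * (s u k - s v k) = 0}
  add_mem' := by
    intro a b ha hb u v h
    have h1 := ha u v h
    have h2 := hb u v h
    simp only [Pi.add_apply]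
    calc _ = ∑ k, (p u k - p v k) * (a u k - a v k) +
          ∑ k, (p u k - p v k) * (b u k - b v k) := by
          rw [← Finset.sum_add_distrib]
          exact Finset.sum_congr rfl fun k _ => by ring
      _ = 0 := by rw [h1, h2, add_zero]
  zero_mem' := by intro u v _; simp
  smul_mem' := by
    intro c a ha u v h
    have h1 := ha u v h
    simp only [Pi.smul_apply, smul_eq_mul]
    calc _ = c * ∑ k, (p u k - p v k) * (a u k - a v k) := by
          rw [Finset.mul_sum]
          exact Finset.sum_congr rfl fun k _ => by ring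
      _ = 0 := by rw [h1, mul_zero]

theorem mem_Z {G : SimpleGraph V} {p s : V → Fin d → ℝ} :
    s ∈ Z G p ↔ ∀ u v, G.Adj u v → ∑ k, (p u k - p v k) * (s u k - s v k) = 0 := Iff.rfl

theorem Z_anti {G H : SimpleGraph V} (h : H ≤ G) (p : V → Fin d → ℝ) : Z G p ≤ Z H p :=
  fun _ hs u v huv => hs u v (h huv)

variable [DecidableEq V]

theorem entry (G : SimpleGraph V) (p : V → Fin d → ℝ) {u v : V} (h : s(u, v) ∈ G.edgeSet)
    (w : V) (k : Fin d) : rigidityMatrix G p ⟨s(u, v), h⟩ (w, k) =
      (if w = u then p u k - p v k else 0) + (if w = v then p v k - p u k else 0) := by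
  have huv : u ≠ v := G.ne_of_adj h
  unfold rigidityMatrix
  dsimp only
  by_cases h1 : w = u
  · subst h1
    have hm : w ∈ s(w, v) := Sym2.mem_mk_left _ _
    have : Sym2.Mem.other hm = v := by
      have h3 := Sym2.other_spec hm
      exact Sym2.congr_right.1 h3
    rw [dif_pos hm, this, if_pos rfl, if_neg huv, add_zero]
  · by_cases h2 : w = v
    · subst h2
      have hm : w ∈ s(u, w) := Sym2.mem_mk_right _ _
      have : Sym2.Mem.other hm = u := by
        have h3 := Sym2.other_spec hm
        rw [Sym2.eq_swap] at h3
        exact Sym2.congr_left.1 h3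
      rw [dif_pos hm, this, if_neg h1, if_pos rfl, zero_add]
    · have hm : w ∉ s(u, v) := by
        rw [Sym2.mem_iff]
        tauto
      rw [dif_neg hm, if_neg h1, if_neg h2, add_zero]

theorem mulVec_eq [Fintype V] (G : SimpleGraph V) (p : V → Fin d → ℝ) (x : V × Fin d → ℝ)
    {u v : V} (h : s(u, v) ∈ G.edgeSet) : (rigidityMatrix G p).mulVec x ⟨s(u, v), h⟩ =
      ∑ k, (p u k - p v k) * (x (u, k) - x (v, k)) := by
  unfold Matrix.mulVec dotProduct
  rw [Fintype.sum_prod_type, Finset.sum_comm]
  refine Finset.sum_congr rfl fun k _ => ?_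
  simp_rw [entry G p h, add_mul, ite_mul, zero_mul]
  rw [Finset.sum_add_distrib, Finset.sum_ite_eq', Finset.sum_ite_eq']
  simp only [Finset.mem_univ, if_true]
  ring

theorem finrank_Z [Fintype V] (G : SimpleGraph V) (p : V → Fin d → ℝ) :
    (rigidityMatrix G p).rank + finrank ℝ (Z G p) = d * Fintype.card V := by
  have h1 := LinearMap.finrank_range_add_finrank_ker (rigidityMatrix G p).mulVecLin
  have h2 : finrank ℝ (V × Fin d → ℝ) = d * Fintype.card V := by
    rw [Module.finrank_fintype_fun_eq_card, Fintype.card_prod, Fintype.card_fin, mul_comm]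
  rw [h2] at h1
  have h3 : finrank ℝ (Z G p) = finrank ℝ (LinearMap.ker (rigidityMatrix G p).mulVecLin) := by
    have h4 : Z G p = (LinearMap.ker (rigidityMatrix G p).mulVecLin).map
        ((LinearEquiv.curry ℝ ℝ V (Fin d) : (V × Fin d → ℝ) ≃ₗ[ℝ] (V → Fin d → ℝ)) :
          (V × Fin d → ℝ) →ₗ[ℝ] (V → Fin d → ℝ)) := by
      ext s
      rw [Submodule.mem_map]
      constructor
      · intro hs
        refine ⟨fun c => s c.1 c.2, ?_, rfl⟩
        rw [LinearMap.mem_ker, Matrix.mulVecLin_apply]
        funext e
        obtain ⟨e, he⟩ := e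
        induction e with
        | _ u v =>
          rw [mulVec_eq]
          exact hs u v he
      · rintro ⟨x, hx, rfl⟩
        rw [LinearMap.mem_ker, Matrix.mulVecLin_apply] at hx
        intro u v huv
        exact (mulVec_eq G p x (show s(u, v) ∈ G.edgeSet from huv)).symm.trans (congrFun hx _)
    rw [h4]
    exact LinearEquiv.finrank_map_eq _ _
  rw [h3]
  exact h1

end Motions

/-! ### Generic rank -/

theorem rank_le_of_algInd {E C σ : Type} [Finite E] [Fintype C]
    (M : Matrix E C (MvPolynomial σ ℚ)) {x : σ → ℝ} (hx : AlgebraicIndependent ℚ x)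
    (y : σ → ℝ) :
    (M.map (MvPolynomial.aeval y)).rank ≤ (M.map (MvPolynomial.aeval x)).rank := by
  classical
  have := Fintype.ofFinite E
  set A : Matrix E C ℝ := M.map (MvPolynomial.aeval y) with hA
  set B : Matrix E C ℝ := M.map (MvPolynomial.aeval x) with hB
  obtain ⟨b, -, -, hb1, hb2⟩ := exists_linearIndepOn_extension (K := ℝ) (v := A.row)
    (linearIndepOn_empty ℝ A.row) (Set.empty_subset Set.univ)
  -- the size of `b` is the rank of `A`
  have hAr : A.rank = Fintype.card b := by
    rw [Matrix.rank_eq_finrank_span_row]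
    have h1 : Submodule.span ℝ (Set.range A.row) = Submodule.span ℝ (A.row '' b) := by
      apply le_antisymm
      · rw [Submodule.span_le, ← Set.image_univ]
        exact hb1
      · exact Submodule.span_mono (Set.image_subset_range _ _)
    rw [h1, Set.image_eq_range]
    exact finrank_span_eq_card hb2
  have hgram : ∀ z : σ → ℝ,
      ((M.map (MvPolynomial.aeval z)).submatrix (Subtype.val : b → E) id *
        ((M.map (MvPolynomial.aeval z)).submatrix (Subtype.val : b → E) id).transpose).det =
      MvPolynomial.aeval z ((M.submatrix (Subtype.val : b → E) id *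
        (M.submatrix (Subtype.val : b → E) id).transpose).det) := by
    intro z
    rw [AlgHom.map_det, AlgHom.mapMatrix_apply]
    congr 1
    rw [Matrix.map_mul, Matrix.transpose_map, Matrix.submatrix_map]
  have hdet : (A.submatrix (Subtype.val : b → E) id *
        (A.submatrix (Subtype.val : b → E) id).transpose).det ≠ 0 := by
    have h1 : (A.submatrix (Subtype.val : b → E) id *
        (A.submatrix (Subtype.val : b → E) id).transpose).rank = Fintype.card b := by
      rw [Matrix.rank_self_mul_transpose]
      apply LinearIndependent.rank_matrix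
      exact hb2
    intro h0
    obtain ⟨c, hc0, hc⟩ := Matrix.exists_mulVec_eq_zero_iff.2 h0
    have h2 := LinearMap.finrank_range_add_finrank_ker (A.submatrix (Subtype.val : b → E) id *
        (A.submatrix (Subtype.val : b → E) id).transpose).mulVecLin
    have h2' : finrank ℝ (b → ℝ) = Fintype.card b := Module.finrank_fintype_fun_eq_card ℝ
    rw [h2'] at h2
    have h1' : finrank ℝ (LinearMap.range (A.submatrix (Subtype.val : b → E) id *
        (A.submatrix (Subtype.val : b → E) id).transpose).mulVecLin) = Fintype.card b := h1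
    rw [h1'] at h2
    have h3 : finrank ℝ (LinearMap.ker (A.submatrix (Subtype.val : b → E) id *
        (A.submatrix (Subtype.val : b → E) id).transpose).mulVecLin) = 0 := by omega
    rw [Submodule.finrank_eq_zero] at h3
    have h4 : c ∈ LinearMap.ker (A.submatrix (Subtype.val : b → E) id *
        (A.submatrix (Subtype.val : b → E) id).transpose).mulVecLin := by
      rw [LinearMap.mem_ker, Matrix.mulVecLin_apply]
      exact hc
    rw [h3, Submodule.mem_bot] at h4
    exact hc0 h4
  have hdetB : (B.submatrix (Subtype.val : b → E) id *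
        (B.submatrix (Subtype.val : b → E) id).transpose).det ≠ 0 := by
    rw [hB, hgram]
    rw [hA, hgram] at hdet
    intro h0
    apply hdet
    have : (M.submatrix (Subtype.val : b → E) id *
        (M.submatrix (Subtype.val : b → E) id).transpose).det = 0 := by
      have hinj : Function.Injective (MvPolynomial.aeval (R := ℚ) x) := hx
      apply hinj
      rw [h0, map_zero]
    rw [this, map_zero]
  have h5 := Matrix.rank_of_det_ne_zero hdetB
  rw [Matrix.rank_self_mul_transpose] at h5
  rw [hAr, ← h5]
  exact Matrix.rank_submatrix_le _ _ _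

/-- polynomial rigidity matrix -/
noncomputable def pmat {V : Type} [DecidableEq V] (d : ℕ) (G : SimpleGraph V) :
    Matrix G.edgeSet (V × Fin d) (MvPolynomial (V × Fin d) ℚ) :=
  fun e c => if h : c.1 ∈ e.1 then MvPolynomial.X (c.1, c.2) -
    MvPolynomial.X (Sym2.Mem.other h, c.2) else 0

theorem pmat_map {V : Type} [DecidableEq V] {d : ℕ} (G : SimpleGraph V) (p : V → Fin d → ℝ) :
    (pmat d G).map (MvPolynomial.aeval (fun c : V × Fin d => p c.1 c.2)) =
      rigidityMatrix G p := by
  ext e c
  simp only [Matrix.map_apply, pmat, rigidityMatrix]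
  split_ifs with h
  · simp
  · simp

/-- the rank of the rigidity matrix is largest at generic realizations -/
theorem rank_le_generic {V : Type} [Fintype V] [DecidableEq V] {d : ℕ} (G : SimpleGraph V)
    {p : V → Fin d → ℝ} (hp : Generic p) (q : V → Fin d → ℝ) :
    (rigidityMatrix G q).rank ≤ (rigidityMatrix G p).rank := by
  classical
  rw [← pmat_map G q, ← pmat_map G p]
  exact rank_le_of_algInd (pmat d G) hp _

theorem Z_generic_le {V : Type} [Fintype V] [DecidableEq V] {d : ℕ} (G : SimpleGraph V)
    {p : V → Fin d → ℝ} (hp : Generic p) (q : V → Fin d → ℝ) :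
    finrank ℝ (Z G p) ≤ finrank ℝ (Z G q) := by
  have h1 := finrank_Z G p
  have h2 := finrank_Z G q
  have h3 := rank_le_generic G hp q
  omega

end Pool.Agent.KS6_32.CG
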