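import Pool.Agent.KS6_32.CG.C

/-!
# Rigidity through motions
-/

namespace Pool.Agent.KS6_32.CG

open Matrix Module Filter Topology

theorem choose_succ_two (d : ℕ) : (d + 1 + 1).choose 2 = (d + 1).choose 2 + (d + 1) := by
  rw [Nat.choose_succ_succ' (d + 1) 1, Nat.choose_one_right]
  ring

theorem top_comap {V W : Type} (f : V → W) (hf : Function.Injective f) :
    (⊤ : SimpleGraph W).comap f = ⊤ := by
  ext a b
  simp only [SimpleGraph.comap_adj, SimpleGraph.top_adj]
  exact hf.ne_iff

/-- the complete graph has at least `binom(d+1, 2)` independent motions -/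
theorem choose_le_Z_top : ∀ (d : ℕ) (V : Type) [Fintype V] [DecidableEq V], d ≤ Fintype.card V →
    ∀ q : V → Fin d → ℝ, (d + 1).choose 2 ≤ finrank ℝ (Z (⊤ : SimpleGraph V) q) := by
  intro d
  induction d with
  | zero =>
    intro V _ _ _ q
    simp
  | succ d ih =>
    intro V _ _ hd q
    obtain ⟨p, hp⟩ := exists_generic V (d + 1)
    refine le_trans ?_ (Z_generic_le ⊤ hp q)
    obtain ⟨v₀⟩ : Nonempty V := Fintype.card_pos_iff.1 (by omega)
    let e : Option {x : V // x ≠ v₀} ≃ V := Equiv.optionSubtypeNe v₀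
    have hp' := hp.comp e
    rw [← finrank_Z_comap e ⊤ p, top_comap _ e.injective]
    obtain ⟨q', hq'⟩ := cone_ge (⊤ : SimpleGraph (Option {x : V // x ≠ v₀}))
      (fun w => p (e w)) (fun u => sub_ne_zero.2 (hp'.ne (by simp) _))
    rw [top_comap _ (Option.some_injective _)] at hq'
    have hc : Fintype.card {x : V // x ≠ v₀} + 1 = Fintype.card V := by
      rw [← Fintype.card_option]
      exact Fintype.card_congr e
    have h1 := ih {x : V // x ≠ v₀} (by omega) q'
    rw [choose_succ_two]
    omega

theorem choose_add (d : ℕ) : d.choose 2 + (d + 1).choose 2 = d * d := by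
  induction d with
  | zero => rfl
  | succ d ih =>
    rw [choose_succ_two]
    have h1 : (d + 1).choose 2 = d.choose 2 + d := by
      rw [Nat.choose_succ_succ' d 1, Nat.choose_one_right]
      ring
    have h2 : (d + 1) * (d + 1) = d * d + 2 * d + 1 := by ring
    omega

section Rig

variable {V : Type} [Fintype V] [DecidableEq V] {d : ℕ}

theorem rank_iff (G : SimpleGraph V) (hd : d ≤ Fintype.card V) (p : V → Fin d → ℝ) :
    (if Fintype.card V ≤ d then (Fintype.card V).choose 2
      else d * Fintype.card V - (d + 1).choose 2) ≤ (rigidityMatrix G p).rank ↔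
      finrank ℝ (Z G p) ≤ (d + 1).choose 2 := by
  have h1 := finrank_Z G p
  split_ifs with h
  · have h2 : Fintype.card V = d := le_antisymm h hd
    rw [h2] at h1 ⊢
    have h3 := choose_add d
    omega
  · omega

theorem rigid_iff (G : SimpleGraph V) (hd : d ≤ Fintype.card V) :
    Rigid d G ↔ ∀ p : V → Fin d → ℝ, Generic p → finrank ℝ (Z G p) ≤ (d + 1).choose 2 := by
  unfold Rigid
  exact forall_congr' fun p => imp_congr_right fun _ => rank_iff G hd p

theorem rigid_of_exists (G : SimpleGraph V) (hd : d ≤ Fintype.card V) (q : V → Fin d → ℝ)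
    (hq : finrank ℝ (Z G q) ≤ (d + 1).choose 2) : Rigid d G :=
  (rigid_iff G hd).2 fun _ hp => (Z_generic_le G hp q).trans hq

theorem Z_eq_top (G : SimpleGraph V) (hd : d ≤ Fintype.card V) (q : V → Fin d → ℝ)
    (hq : finrank ℝ (Z G q) ≤ (d + 1).choose 2) : Z G q = Z ⊤ q := by
  symm
  apply Submodule.eq_of_le_of_finrank_le (Z_anti le_top q)
  exact hq.trans (choose_le_Z_top d V hd q)

/-- rigid graphs are connected -/
theorem preconnected_of (G : SimpleGraph V) (hd1 : 1 ≤ d) (hd : d ≤ Fintype.card V)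
    {q : V → Fin d → ℝ} (hgen : Generic q) (hq : finrank ℝ (Z G q) ≤ (d + 1).choose 2) :
    G.Preconnected := by
  classical
  intro a b
  by_contra hab
  have hne : a ≠ b := by
    rintro rfl
    exact hab (SimpleGraph.Reachable.refl _)
  let s : V → Fin d → ℝ := fun x k => if G.Reachable a x then q a k - q b k else 0
  have hs : s ∈ Z G q := by
    intro u v huv
    have h1 : ∀ k, s u k = s v k := by
      intro k
      simp only [s]
      by_cases h : G.Reachable a u
      · rw [if_pos h, if_pos (h.trans huv.reachable)]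
      · rw [if_neg h, if_neg (fun h' => h (h'.trans huv.symm.reachable))]
    exact Finset.sum_eq_zero fun k _ => by rw [h1 k]; ring
  rw [Z_eq_top G hd q hq] at hs
  have h2 := hs a b hne
  have h3 : ∀ k, (q a k - q b k) * (s a k - s b k) = (q a k - q b k) ^ 2 := by
    intro k
    simp only [s]
    rw [if_pos (SimpleGraph.Reachable.refl _), if_neg hab]
    ring
  rw [Finset.sum_congr rfl fun k _ => h3 k] at h2
  have h4 := (Finset.sum_eq_zero_iff_of_nonneg (fun k _ => sq_nonneg _)).1 h2 ⟨0, hd1⟩
    (Finset.mem_univ _)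
  have h5 : q a ⟨0, hd1⟩ = q b ⟨0, hd1⟩ := by
    have := pow_eq_zero_iff (two_ne_zero) |>.1 h4
    linarith
  exact hgen.ne hne _ h5

/-- an order in which every vertex except the root has a larger neighbour -/
theorem exists_order (G : SimpleGraph V) (hG : G.Preconnected) (ρ : V) :
    ∃ r : V → ℕ, Function.Injective r ∧ ∀ u, u ≠ ρ → ∃ w, G.Adj u w ∧ r u < r w := by
  classical
  let n := Fintype.card V
  let ix : V ≃ Fin n := Fintype.equivFin V
  obtain ⟨N, hN⟩ : ∃ N, ∀ x, G.dist x ρ ≤ N :=
    ⟨Finset.univ.sup (fun x => G.dist x ρ), fun x => Finset.le_sup (f := fun x => G.dist x ρ)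
      (Finset.mem_univ x)⟩
  refine ⟨fun x => (N - G.dist x ρ) * n + ix x, ?_, ?_⟩
  · intro x y hxy
    have hx := (ix x).2
    have hy := (ix y).2
    have h1 : ((N - G.dist x ρ) * n + ix x) % n = ((N - G.dist y ρ) * n + ix y) % n :=
      congrArg (· % n) hxy
    rw [Nat.mul_add_mod', Nat.mul_add_mod', Nat.mod_eq_of_lt hx, Nat.mod_eq_of_lt hy] at h1
    exact ix.injective (Fin.ext h1)
  · intro u hu
    obtain ⟨w, hw, hd⟩ : ∃ w, G.Adj u w ∧ G.dist w ρ + 1 ≤ G.dist u ρ := by
      obtain ⟨p, hp⟩ := (hG u ρ).exists_walk_length_eq_dist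
      cases p with
      | nil => exact absurd rfl hu
      | cons h p' =>
        rename_i w
        refine ⟨w, h, ?_⟩
        rw [← hp, SimpleGraph.Walk.length_cons]
        have := SimpleGraph.dist_le p'
        omega
    refine ⟨w, hw, ?_⟩
    have h1 := (ix u).2
    have h2 := hN u
    have h3 := hN w
    have h4 : (N - G.dist u ρ) + 1 ≤ N - G.dist w ρ := by omega
    have h5 : ((N - G.dist u ρ) + 1) * n ≤ (N - G.dist w ρ) * n := Nat.mul_le_mul_right n h4
    have h6 : ((N - G.dist u ρ) + 1) * n = (N - G.dist u ρ) * n + n := by ring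
    dsimp only
    omega

end Rig

end Pool.Agent.KS6_32.CG
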