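import Pool.Agent.KS6_32.CG.E

/-!
# Heights which make deleted cone edges independent
-/

namespace Pool.Agent.KS6_32.CG

open Matrix Module Filter Topology

theorem tendsto_ratio {a b : ℕ} (h : a < b) :
    Tendsto (fun x : ℝ => (x ^ b)⁻¹ * x ^ a) atTop (𝓝 0) := by
  have h1 : Tendsto (fun x : ℝ => (x ^ (b - a))⁻¹) atTop (𝓝 0) :=
    tendsto_inv_atTop_zero.comp (tendsto_pow_atTop (by omega))
  refine h1.congr' ?_
  filter_upwards [eventually_gt_atTop 0] with x hx
  have h2 : x ^ b = x ^ (b - a) * x ^ a := by
    rw [← pow_add]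
    congr 1
    omega
  rw [h2]
  have := hx.ne'
  field_simp

theorem tendsto_one (b : ℕ) :
    Tendsto (fun x : ℝ => (x ^ b)⁻¹ * x ^ b) atTop (𝓝 1) := by
  refine tendsto_const_nhds.congr' ?_
  filter_upwards [eventually_gt_atTop 0] with x hx
  have := hx.ne'
  field_simp

section Heights

variable {V : Type} [Fintype V] [DecidableEq V] {d : ℕ}

/-- the column of the vertex `u` in dimension one -/
noncomputable def col (G : SimpleGraph V) (β : V → ℝ) (u : V) : G.edgeSet → ℝ :=
  fun e => rigidityMatrix G (fun v (_ : Fin 1) => β v) e (u, 0)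

omit [Fintype V] in
theorem col_apply (G : SimpleGraph V) (β : V → ℝ) (u : V) {a b : V} (h : s(a, b) ∈ G.edgeSet) :
    col G β u ⟨s(a, b), h⟩ =
      (if u = a then β a - β b else 0) + (if u = b then β b - β a else 0) :=
  entry G _ h u 0

/-- the strains of a velocity field -/
noncomputable def strain (G : SimpleGraph V) (q : V → Fin d → ℝ) :
    (V → Fin d → ℝ) →ₗ[ℝ] (G.edgeSet → ℝ) :=
  (rigidityMatrix G q).mulVecLin ∘ₗ
    ((LinearEquiv.curry ℝ ℝ V (Fin d)).symm : (V → Fin d → ℝ) →ₗ[ℝ] (V × Fin d → ℝ))

theorem strain_apply (G : SimpleGraph V) (q s : V → Fin d → ℝ) {a b : V}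
    (h : s(a, b) ∈ G.edgeSet) :
    strain G q s ⟨s(a, b), h⟩ = ∑ k, (q a k - q b k) * (s a k - s b k) :=
  mulVec_eq G q _ h

theorem exists_heights (G : SimpleGraph V) (hd : d ≤ Fintype.card V) {q : V → Fin d → ℝ}
    (r : V → ℕ) (hr : Function.Injective r) (U : Finset V)
    (hU : ∀ u ∈ U, ∃ w, G.Adj u w ∧ r u < r w)
    (hcut : ∀ F : Finset (Sym2 V), (F : Set (Sym2 V)) ⊆ G.edgeSet → F.card ≤ U.card →
      finrank ℝ (Z (G.deleteEdges (F : Set (Sym2 V))) q) ≤ (d + 1).choose 2) :
    ∃ β : V → ℝ, (∀ u, β u ≠ 0) ∧ ∀ (s : V → Fin d → ℝ) (t : V → ℝ),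
      (∀ u v, G.Adj u v →
        ∑ k, (q u k - q v k) * (s u k - s v k) = (β u - β v) * (t u - t v)) →
      (∀ u, u ∉ U → t u = 0) → t = 0 := by
  classical
  have hw : ∀ u : U, ∃ w, G.Adj u w ∧ r u < r w ∧ ∀ j, G.Adj u j → r j ≤ r w := by
    intro u
    obtain ⟨w₀, h1, h2⟩ := hU u u.2
    obtain ⟨w, hw1, hw2⟩ := Finset.exists_max_image (Finset.univ.filter (fun j => G.Adj u j)) r
      ⟨w₀, by simpa using h1⟩
    refine ⟨w, by simpa using hw1, ?_, ?_⟩
    · exact h2.trans_le (hw2 w₀ (by simpa using h1))
    · intro j hj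
      exact hw2 j (by simpa using hj)
  choose w hw1 hw2 hw3 using hw
  let ed : U → G.edgeSet := fun u => ⟨s(u.1, w u), hw1 u⟩
  have hed : Function.Injective ed := by
    intro u u' h
    have h1 : s(u.1, w u) = s(u'.1, w u') := congrArg Subtype.val h
    rw [Sym2.eq_iff] at h1
    rcases h1 with h1 | h1
    · exact Subtype.ext h1.1
    · have h2 := hw2 u
      have h3 := hw2 u'
      rw [h1.2] at h2
      rw [← h1.1] at h3
      omega
  let Q := (G.edgeSet → ℝ) ⧸ LinearMap.range (strain G q)
  let π : (G.edgeSet → ℝ) →ₗ[ℝ] (Fin (finrank ℝ Q) → ℝ) :=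
    ((Module.finBasis ℝ Q).equivFun : Q →ₗ[ℝ] _) ∘ₗ (LinearMap.range (strain G q)).mkQ
  have hπ : ∀ x, π x = 0 ↔ x ∈ LinearMap.range (strain G q) := by
    intro x
    have h1 : π x = (Module.finBasis ℝ Q).equivFun
      ((LinearMap.range (strain G q)).mkQ x) := rfl
    rw [h1, LinearEquiv.map_eq_zero_iff, Submodule.mkQ_apply]
    exact Submodule.Quotient.mk_eq_zero _
  let f0 : U → (Fin (finrank ℝ Q) → ℝ) := fun u => π (-(Pi.single (ed u) (1 : ℝ)))
  have hf0 : LinearIndependent ℝ f0 := by
    rw [Fintype.linearIndependent_iff]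
    intro c hc u₀
    have h1 : π (∑ u, c u • (-(Pi.single (ed u) (1 : ℝ)) : G.edgeSet → ℝ)) = 0 := by
      rw [map_sum, ← hc]
      exact Finset.sum_congr rfl fun u _ => by rw [map_smul]
    rw [hπ] at h1
    obtain ⟨s, hs⟩ := h1
    let F : Finset (Sym2 V) := Finset.univ.image (fun u : U => (ed u).1)
    have hF1 : (F : Set (Sym2 V)) ⊆ G.edgeSet := by
      intro e he
      rw [Finset.mem_coe, Finset.mem_image] at he
      obtain ⟨u, -, rfl⟩ := he
      exact (ed u).2
    have hF2 : F.card ≤ U.card := by
      refine Finset.card_image_le.trans ?_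
      rw [Finset.card_univ, Fintype.card_coe]
    have hsZ : s ∈ Z (G.deleteEdges (F : Set (Sym2 V))) q := by
      intro a b hab
      rw [SimpleGraph.deleteEdges_adj] at hab
      have h2 := strain_apply G q s (a := a) (b := b) hab.1
      rw [← h2, hs, Finset.sum_apply]
      apply Finset.sum_eq_zero
      intro u _
      rw [Pi.smul_apply, Pi.neg_apply, Pi.single_eq_of_ne, neg_zero, smul_zero]
      intro h3
      apply hab.2
      rw [Finset.mem_coe, Finset.mem_image]
      exact ⟨u, Finset.mem_univ _, (congrArg Subtype.val h3).symm⟩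
    rw [Z_eq_top _ hd q (hcut F hF1 hF2)] at hsZ
    have h2 : strain G q s (ed u₀) = 0 := by
      exact (strain_apply G q s (show s(u₀.1, w u₀) ∈ G.edgeSet from hw1 u₀)).trans
        (hsZ _ _ (G.ne_of_adj (hw1 u₀)))
    rw [hs, Finset.sum_apply, Finset.sum_eq_single u₀] at h2
    · rw [Pi.smul_apply, Pi.neg_apply, Pi.single_eq_same, smul_eq_mul] at h2
      linarith
    · intro u _ hu
      rw [Pi.smul_apply, Pi.neg_apply, Pi.single_eq_of_ne, neg_zero, smul_zero]
      intro h3
      exact hu (hed h3).symm
    · intro h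
      exact absurd (Finset.mem_univ _) h
  let β : ℝ → V → ℝ := fun x v => x ^ r v
  let f : ℝ → U → (Fin (finrank ℝ Q) → ℝ) := fun x u =>
    π ((β x (w u))⁻¹ • col G (β x) u.1)
  have hlim : Tendsto f atTop (𝓝 f0) := by
    rw [tendsto_pi_nhds]
    intro u
    refine (π.continuous_of_finiteDimensional.tendsto _).comp ?_
    rw [tendsto_pi_nhds]
    rintro ⟨e, he⟩
    induction e with
    | _ a b =>
      have hab : a ≠ b := G.ne_of_adj he
      have hcol : ∀ x, ((β x (w u))⁻¹ • col G (β x) u.1) ⟨s(a, b), he⟩ =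
          (x ^ r (w u))⁻¹ * ((if u.1 = a then x ^ r a - x ^ r b else 0) +
            (if u.1 = b then x ^ r b - x ^ r a else 0)) := by
        intro x
        rw [Pi.smul_apply, col_apply, smul_eq_mul]
      simp_rw [hcol]
      -- the limit for a neighbour
      have key : ∀ j, G.Adj u.1 j → Tendsto (fun x : ℝ => (x ^ r (w u))⁻¹ *
          (x ^ r u.1 - x ^ r j)) atTop (𝓝 (if j = w u then -1 else 0)) := by
        intro j hj
        have h1 := tendsto_ratio (hw2 u)
        have h2 : Tendsto (fun x : ℝ => (x ^ r (w u))⁻¹ * x ^ r j) atTop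
            (𝓝 (if j = w u then 1 else 0)) := by
          split_ifs with h
          · rw [h]
            exact tendsto_one _
          · apply tendsto_ratio
            exact lt_of_le_of_ne (hw3 u j hj) (fun h' => h (hr h'))
        have h3 := h1.sub h2
        have h4 : (0 : ℝ) - (if j = w u then 1 else 0) = if j = w u then -1 else 0 := by
          split_ifs <;> ring
        rw [h4] at h3
        exact h3.congr fun x => by ring
      by_cases h1 : u.1 = a
      · have h2 : u.1 ≠ b := fun h => hab (h1.symm.trans h)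
        simp only [if_pos h1, if_neg h2, add_zero]
        have h3 := key b (h1 ▸ he)
        rw [h1] at h3
        have h4 : (-(Pi.single (ed u) (1 : ℝ)) : G.edgeSet → ℝ) ⟨s(a, b), he⟩ =
            if b = w u then -1 else 0 := by
          rw [Pi.neg_apply, Pi.single_apply]
          by_cases h5 : b = w u
          · rw [if_pos h5, if_pos]
            apply Subtype.ext
            change s(a, b) = s(u.1, w u)
            rw [h5, h1]
          · rw [if_neg h5, if_neg, neg_zero]
            intro h6
            have h7 : s(a, b) = s(u.1, w u) := congrArg Subtype.val h6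
            rw [h1] at h7
            exact h5 (Sym2.congr_right.1 h7)
        rw [h4]
        exact h3
      · by_cases h2 : u.1 = b
        · simp only [if_neg h1, if_pos h2, zero_add]
          have h3 := key a (h2 ▸ (SimpleGraph.Adj.symm (show G.Adj a b from he)))
          rw [h2] at h3
          have h4 : (-(Pi.single (ed u) (1 : ℝ)) : G.edgeSet → ℝ) ⟨s(a, b), he⟩ =
              if a = w u then -1 else 0 := by
            rw [Pi.neg_apply, Pi.single_apply]
            by_cases h5 : a = w u
            · rw [if_pos h5, if_pos]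
              apply Subtype.ext
              change s(a, b) = s(u.1, w u)
              rw [h5, h2, Sym2.eq_swap]
            · rw [if_neg h5, if_neg, neg_zero]
              intro h6
              have h7 : s(a, b) = s(u.1, w u) := congrArg Subtype.val h6
              rw [h2, Sym2.eq_swap] at h7
              exact h5 (Sym2.congr_right.1 h7)
          rw [h4]
          exact h3
        · simp only [if_neg h1, if_neg h2, add_zero, mul_zero]
          have h4 : (-(Pi.single (ed u) (1 : ℝ)) : G.edgeSet → ℝ) ⟨s(a, b), he⟩ = 0 := by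
            rw [Pi.neg_apply, Pi.single_apply, if_neg, neg_zero]
            intro h6
            have h7 : s(a, b) = s(u.1, w u) := congrArg Subtype.val h6
            rw [Sym2.eq_iff] at h7
            rcases h7 with h7 | h7
            · exact h1 h7.1.symm
            · exact h2 h7.2.symm
          rw [h4]
          exact tendsto_const_nhds
  obtain ⟨x, hx, hx0⟩ := ((hlim.eventually (LinearIndependent.eventually hf0)).and
    (eventually_gt_atTop (0 : ℝ))).exists
  have hβ : ∀ v, 0 < β x v := fun v => pow_pos hx0 _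
  refine ⟨β x, fun v => (hβ v).ne', ?_⟩
  intro s t hst ht
  have h1 : strain G q s = ∑ u : U, t u.1 • col G (β x) u.1 := by
    funext e
    obtain ⟨e, he⟩ := e
    induction e with
    | _ a b =>
      rw [strain_apply, hst a b he, Finset.sum_apply]
      simp only [Pi.smul_apply, smul_eq_mul, col_apply]
      rw [Finset.sum_coe_sort U (fun u => t u * ((if u = a then β x a - β x b else 0) +
        (if u = b then β x b - β x a else 0)))]
      rw [Finset.sum_subset (Finset.subset_univ U)
        (fun u _ hu => by rw [ht u hu, zero_mul])]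
      simp_rw [mul_add, mul_ite, mul_zero]
      rw [Finset.sum_add_distrib, Finset.sum_ite_eq', Finset.sum_ite_eq']
      simp only [Finset.mem_univ, if_true]
      ring
  have h2 : π (∑ u : U, t u.1 • col G (β x) u.1) = 0 := by
    rw [hπ]
    exact ⟨s, h1⟩
  have h3 : ∑ u : U, (t u.1 * β x (w u)) • f x u = 0 := by
    rw [← h2, map_sum]
    refine Finset.sum_congr rfl fun u _ => ?_
    simp only [f]
    rw [← map_smul]
    congr 1
    rw [smul_smul, mul_assoc, mul_inv_cancel₀ (hβ (w u)).ne', mul_one]
  rw [Fintype.linearIndependent_iff] at hx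
  have h4 := hx _ h3
  funext u
  by_cases hu : u ∈ U
  · have h5 := h4 ⟨u, hu⟩
    rcases mul_eq_zero.1 h5 with h6 | h6
    · exact h6
    · exact absurd h6 (hβ _).ne'
  · exact ht u hu

end Heights

end Pool.Agent.KS6_32.CG
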