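import Pool.Agent.KS6_32.CG.F

/-!
# Coning preserves the co-girth
-/

namespace Pool.Agent.KS6_32.CG

open Matrix Module

section Cogirth

variable {V : Type} [Fintype V] [DecidableEq V] {d : ℕ}

/-- number of edges of `G` which are missing in `H` -/
noncomputable def miss (G H : SimpleGraph V) : ℕ := (G.edgeSet \ H.edgeSet).ncard

theorem cogirth_eq (G : SimpleGraph V) : cogirth d G =
    sInf {k | ∃ H ≤ G, ¬ Rigid d H ∧ miss G H = k} := by
  classical
  unfold cogirth miss
  congr 1
  ext k
  constructor
  · rintro ⟨F, h1, h2, rfl⟩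
    refine ⟨_, G.deleteEdges_le _, h2, ?_⟩
    rw [SimpleGraph.edgeSet_deleteEdges, Set.sdiff_sdiff_cancel_left h1, Set.ncard_coe_finset]
  · rintro ⟨H, h1, h2, rfl⟩
    have hfin : (G.edgeSet \ H.edgeSet).Finite := Set.toFinite _
    refine ⟨hfin.toFinset, ?_, ?_, ?_⟩
    · rw [Set.Finite.coe_toFinset]
      exact Set.sdiff_subset
    · rw [Set.Finite.coe_toFinset, SimpleGraph.deleteEdges_sdiff_eq_of_le h1]
      exact h2
    · rw [Set.ncard_eq_toFinset_card _ hfin]

theorem not_rigid_bot (h2 : 2 ≤ Fintype.card V) (hd1 : 1 ≤ d) (hd : d ≤ Fintype.card V)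
    {G : SimpleGraph V} {x : V} (hx : ∀ y, ¬ G.Adj x y) : ¬ Rigid d G := by
  intro h
  obtain ⟨q, hq⟩ := exists_generic V d
  have h1 := preconnected_of G hd1 hd hq ((rigid_iff G hd).1 h q hq)
  obtain ⟨y, hy⟩ : ∃ y, y ≠ x := by
    have : Nontrivial V := Fintype.one_lt_card_iff_nontrivial.1 (by omega)
    exact exists_ne x
  obtain ⟨p⟩ := h1 x y
  cases p with
  | nil => exact hy rfl
  | cons h _ => exact hx _ h

theorem cogirth_le_iff (h2 : 2 ≤ Fintype.card V) (hd1 : 1 ≤ d) (hd : d ≤ Fintype.card V)
    (G : SimpleGraph V) (k : ℕ) :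
    cogirth d G ≤ k ↔ ∃ H ≤ G, ¬ Rigid d H ∧ miss G H ≤ k := by
  rw [cogirth_eq]
  constructor
  · intro hk
    obtain ⟨x⟩ : Nonempty V := Fintype.card_pos_iff.1 (by omega)
    have hne : {k | ∃ H ≤ G, ¬ Rigid d H ∧ miss G H = k}.Nonempty :=
      ⟨_, ⊥, bot_le, not_rigid_bot (x := x) h2 hd1 hd (fun y h => h), rfl⟩
    obtain ⟨H, h1, h3, h4⟩ := Nat.sInf_mem hne
    exact ⟨H, h1, h3, by omega⟩
  · rintro ⟨H, h1, h3, h4⟩
    exact (Nat.sInf_le (show miss G H ∈ {k | ∃ H ≤ G, ¬ Rigid d H ∧ miss G H = k} from
      ⟨H, h1, h3, rfl⟩)).trans h4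

/-- isolating a vertex -/
theorem exists_cut (h2 : 2 ≤ Fintype.card V) (hd1 : 1 ≤ d) (hd : d ≤ Fintype.card V)
    (G : SimpleGraph V) : ∃ H ≤ G, ¬ Rigid d H ∧ miss G H + 1 ≤ Fintype.card V := by
  classical
  obtain ⟨x⟩ : Nonempty V := Fintype.card_pos_iff.1 (by omega)
  refine ⟨G.deleteEdges {e | x ∈ e}, G.deleteEdges_le _, ?_, ?_⟩
  · apply not_rigid_bot (x := x) h2 hd1 hd
    intro y h
    rw [SimpleGraph.deleteEdges_adj] at h
    exact h.2 (Sym2.mem_mk_left _ _)
  · unfold miss
    have h1 : G.edgeSet \ (G.deleteEdges {e | x ∈ e}).edgeSet ⊆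
        (fun y => s(x, y)) '' {y | y ≠ x} := by
      intro e he
      rw [SimpleGraph.edgeSet_deleteEdges] at he
      have hx : x ∈ e := by
        by_contra hx
        exact he.2 ⟨he.1, hx⟩
      obtain ⟨y, rfl⟩ := hx
      exact ⟨y, (G.ne_of_adj he.1).symm, rfl⟩
    have h3 := (Set.ncard_le_ncard h1 (Set.toFinite _)).trans (Set.ncard_image_le (Set.toFinite _))
    have h4 : ({y | y ≠ x} : Set V).ncard + 1 = Fintype.card V := by
      have h5 : ({y | y ≠ x} : Set V) = {x}ᶜ := rfl
      have h6 := Set.ncard_add_ncard_compl ({x} : Set V)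
      rw [Set.ncard_singleton, Nat.card_eq_fintype_card] at h6
      rw [h5]
      omega
    omega

/-- the upper bound: a cone over a non-rigid graph is not rigid -/
theorem base_rigid (hd : d ≤ Fintype.card V) (K : SimpleGraph (Option V))
    (hK : Rigid (d + 1) K) : Rigid d (K.comap some) := by
  obtain ⟨p, hp⟩ := exists_generic (Option V) (d + 1)
  have h1 := (rigid_iff K (by rw [Fintype.card_option]; omega)).1 hK p hp
  obtain ⟨q, hq⟩ := cone_ge K p (fun u => sub_ne_zero.2 (hp.ne (by simp) _))
  refine rigid_of_exists _ hd q ?_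
  rw [choose_succ_two] at h1
  omega

/-- the lower bound -/
theorem cone_rigid (h2 : 2 ≤ Fintype.card V) (hd1 : 1 ≤ d) (hd : d ≤ Fintype.card V)
    (G : SimpleGraph V) (K : SimpleGraph (Option V)) (hKG : K.comap some ≤ G)
    (hG : ∀ H ≤ G, miss G H ≤ miss G (K.comap some) + {u | ¬ K.Adj none (some u)}.ncard →
      Rigid d H) : Rigid (d + 1) K := by
  classical
  set H := K.comap some with hH
  obtain ⟨q, hq⟩ := exists_generic V d
  have hHr : Rigid d H := hG H hKG (by omega)
  have hHq := (rigid_iff H hd).1 hHr q hq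
  let U : Finset V := Finset.univ.filter (fun u => ¬ K.Adj none (some u))
  have hUc : {u | ¬ K.Adj none (some u)}.ncard = U.card := by
    rw [← Set.ncard_coe_finset]
    congr 1
    ext u
    simp [U]
  rw [hUc] at hG
  -- some cone edge is present
  obtain ⟨ρ, hρ⟩ : ∃ ρ, ρ ∉ U := by
    by_contra hcon
    push Not at hcon
    have h3 : U = Finset.univ := Finset.eq_univ_iff_forall.2 hcon
    obtain ⟨H', h4, h5, h6⟩ := exists_cut h2 hd1 hd G
    refine h5 (hG H' h4 ?_)
    rw [h3, Finset.card_univ]
    omega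
  obtain ⟨r, hr, hr2⟩ := exists_order H (preconnected_of H hd1 hd hq hHq) ρ
  obtain ⟨β, hβ, hT⟩ := exists_heights H hd (q := q) r hr U
    (fun u hu => hr2 u (fun h => hρ (h ▸ hu)))
    (by
      intro F hF hFc
      refine (rigid_iff _ hd).1 (hG (H.deleteEdges (F : Set (Sym2 V)))
        ((H.deleteEdges_le _).trans hKG) ?_) q hq
      unfold miss
      have h3 : G.edgeSet \ (H.deleteEdges (F : Set (Sym2 V))).edgeSet ⊆
          (G.edgeSet \ H.edgeSet) ∪ (F : Set (Sym2 V)) := by
        intro e he
        rw [SimpleGraph.edgeSet_deleteEdges] at he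
        by_cases h4 : e ∈ H.edgeSet
        · right
          by_contra h5
          exact he.2 ⟨h4, h5⟩
        · exact Or.inl ⟨he.1, h4⟩
      have h4 := (Set.ncard_le_ncard h3 (Set.toFinite _)).trans (Set.ncard_union_le _ _)
      rw [Set.ncard_coe_finset] at h4
      omega)
  obtain ⟨p, hp⟩ := cone_le K q β hβ (fun s t h3 h4 => hT s t h3 (fun u hu => h4 u (by
    by_contra h5
    exact hu (by simpa [U] using h5))))
  refine rigid_of_exists K (by rw [Fintype.card_option]; omega) p ?_
  rw [choose_succ_two]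
  rw [← hH] at hp
  omega

/-- missing edges of a cone -/
theorem miss_cone (C K : SimpleGraph (Option V)) (hC : ∀ u, C.Adj none (some u)) :
    miss C K = miss (C.comap some) (K.comap some) + {u | ¬ K.Adj none (some u)}.ncard := by
  classical
  unfold miss
  have h1 : C.edgeSet \ K.edgeSet =
      Sym2.map some '' ((C.comap some).edgeSet \ (K.comap some).edgeSet) ∪
        (fun u => s(none, some u)) '' {u | ¬ K.Adj none (some u)} := by
    ext e
    induction e with
    | _ a b =>
      constructor
      · rintro ⟨h1, h2⟩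
        rcases a with _ | a
        · rcases b with _ | b
          · exact absurd h1 C.irrefl
          · exact Or.inr ⟨b, h2, rfl⟩
        · rcases b with _ | b
          · refine Or.inr ⟨a, fun h => h2 ?_, Sym2.eq_swap⟩
            exact h.symm
          · exact Or.inl ⟨s(a, b), ⟨h1, h2⟩, rfl⟩
      · rintro (⟨e, he, h⟩ | ⟨u, hu, h⟩)
        · rw [← h]
          induction e with
          | _ x y => exact ⟨he.1, he.2⟩
        · rw [← h]
          exact ⟨hC u, hu⟩
  rw [h1, Set.ncard_union_eq, Set.ncard_image_of_injective _ (Sym2.map.injective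
    (Option.some_injective _)), Set.ncard_image_of_injective]
  · intro u v h
    exact Option.some_injective _ (Sym2.congr_right.1 h)
  · rw [Set.disjoint_left]
    rintro _ ⟨e, -, rfl⟩ ⟨u, -, h⟩
    induction e with
    | _ x y =>
      rw [Sym2.map_mk, Sym2.eq_iff] at h
      rcases h with h | h
      · exact absurd h.1 (by simp)
      · exact absurd h.1 (by simp)

/-- **Coning preserves rigidity.** -/
theorem rigid_cone_iff (h2 : 2 ≤ Fintype.card V) (hd1 : 1 ≤ d) (hd : d ≤ Fintype.card V)
    (C : SimpleGraph (Option V)) (hC : ∀ u, C.Adj none (some u)) :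
    Rigid (d + 1) C ↔ Rigid d (C.comap some) := by
  constructor
  · exact base_rigid hd C
  · intro h
    have h3 : {u | ¬ C.Adj none (some u)} = (∅ : Set V) := by
      ext u
      simp [hC u]
    refine cone_rigid h2 hd1 hd (C.comap some) C le_rfl ?_
    intro H hH hm
    rw [h3, Set.ncard_empty] at hm
    unfold miss at hm
    rw [Set.sdiff_self, Set.ncard_empty, Nat.le_zero, Set.ncard_eq_zero,
      Set.sdiff_eq_empty] at hm
    have h4 : C.comap some ≤ H := SimpleGraph.edgeSet_subset_edgeSet.1 hm
    rwa [le_antisymm hH h4]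

/-- **Coning preserves the co-girth.** -/
theorem cogirth_cone (h2 : 2 ≤ Fintype.card V) (hd1 : 1 ≤ d) (hd : d ≤ Fintype.card V)
    (C : SimpleGraph (Option V)) (hC : ∀ u, C.Adj none (some u)) :
    cogirth (d + 1) C = cogirth d (C.comap some) := by
  classical
  have hc : Fintype.card (Option V) = Fintype.card V + 1 := Fintype.card_option
  apply eq_of_forall_ge_iff
  intro k
  rw [cogirth_le_iff (by omega) (by omega) (by omega), cogirth_le_iff h2 hd1 hd]
  constructor
  · rintro ⟨K, h3, h4, h5⟩
    by_contra hcon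
    push Not at hcon
    apply h4
    refine cone_rigid h2 hd1 hd (C.comap some) K (fun a b h => h3 h) ?_
    intro H h6 h7
    by_contra h8
    have h9 := hcon H h6 h8
    rw [← miss_cone C K hC] at h7
    omega
  · rintro ⟨H, h3, h4, h5⟩
    -- the cone over `H`
    let K : SimpleGraph (Option V) :=
      C.deleteEdges (Sym2.map some '' ((C.comap some).edgeSet \ H.edgeSet))
    have hK1 : K.comap some = H := by
      ext a b
      simp only [K, SimpleGraph.comap_adj, SimpleGraph.deleteEdges_adj]
      constructor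
      · rintro ⟨h6, h7⟩
        by_contra h8
        exact h7 ⟨s(a, b), ⟨h6, h8⟩, rfl⟩
      · intro h6
        refine ⟨h3 h6, ?_⟩
        rintro ⟨e, he, h7⟩
        have h8 : e = s(a, b) := Sym2.map.injective (Option.some_injective _) h7
        rw [h8] at he
        exact he.2 h6
    have hK2 : ∀ u, K.Adj none (some u) := by
      intro u
      simp only [K, SimpleGraph.deleteEdges_adj]
      refine ⟨hC u, ?_⟩
      rintro ⟨e, -, h7⟩
      induction e with
      | _ x y =>
        rw [Sym2.map_mk, Sym2.eq_iff] at h7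
        rcases h7 with h | h
        · exact absurd h.1 (by simp)
        · exact absurd h.2 (by simp)
    refine ⟨K, C.deleteEdges_le _, ?_, ?_⟩
    · intro h6
      apply h4
      rw [← hK1]
      exact base_rigid hd K h6
    · rw [miss_cone C K hC, hK1]
      have h6 : {u | ¬ K.Adj none (some u)} = (∅ : Set V) := by
        ext u
        simp [hK2 u]
      rw [h6, Set.ncard_empty]
      exact h5

end Cogirth

/-! ### Isomorphic graphs -/

section Iso

variable {V W : Type} [Fintype V] [DecidableEq V] [Fintype W] [DecidableEq W] {d : ℕ}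

theorem rigid_comap (e : W ≃ V) (G : SimpleGraph V) : Rigid d (G.comap e) ↔ Rigid d G := by
  have hc : Fintype.card W = Fintype.card V := Fintype.card_congr e
  have hr : ∀ p : V → Fin d → ℝ, (rigidityMatrix (G.comap e) (fun w => p (e w))).rank =
      (rigidityMatrix G p).rank := by
    intro p
    have h1 := finrank_Z (G.comap e) (fun w => p (e w))
    have h2 := finrank_Z G p
    rw [finrank_Z_comap e G p, hc] at h1
    omega
  unfold Rigid
  rw [hc]
  constructor
  · intro h p hp
    rw [← hr p]
    exact h _ (hp.comp e)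
  · intro h p hp
    have h1 := h _ (hp.comp e.symm)
    rw [← hr] at h1
    simpa using h1

theorem miss_comap (e : W ≃ V) (G H : SimpleGraph V) :
    miss (G.comap e) (H.comap e) = miss G H := by
  unfold miss
  have h1 : G.edgeSet \ H.edgeSet =
      Sym2.map e '' ((G.comap e).edgeSet \ (H.comap e).edgeSet) := by
    ext x
    constructor
    · intro hx
      refine ⟨Sym2.map e.symm x, ?_, ?_⟩
      · induction x with
        | _ a b =>
          obtain ⟨h1, h2⟩ := hx
          rw [Sym2.map_mk]
          refine ⟨?_, ?_⟩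
          · rw [SimpleGraph.mem_edgeSet, SimpleGraph.comap_adj]
            simpa using h1
          · rw [SimpleGraph.mem_edgeSet, SimpleGraph.comap_adj]
            simpa using h2
      · rw [Sym2.map_map]
        simp
    · rintro ⟨y, hy, rfl⟩
      induction y with
      | _ a b => exact hy
  rw [h1, Set.ncard_image_of_injective _ (Sym2.map.injective e.injective)]

theorem cogirth_comap (e : W ≃ V) (G : SimpleGraph V) :
    cogirth d (G.comap e) = cogirth d G := by
  rw [cogirth_eq, cogirth_eq]
  congr 1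
  ext k
  constructor
  · rintro ⟨H, h1, h2, h3⟩
    have h4 : (H.comap e.symm).comap e = H := by
      ext a b
      simp
    refine ⟨H.comap e.symm, ?_, ?_, ?_⟩
    · intro a b h
      have := h1 h
      simpa using this
    · rw [← rigid_comap e, h4]
      exact h2
    · rw [← miss_comap e, h4]
      exact h3
  · rintro ⟨H, h1, h2, h3⟩
    refine ⟨H.comap e, fun a b h => h1 h, ?_, ?_⟩
    · rw [rigid_comap]
      exact h2
    · rw [miss_comap]
      exact h3

end Iso

end Pool.Agent.KS6_32.CG
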