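import Pool.Agent.KS6_32.CG.H
import Pool.Graph.R_seed8.H598R2.Core
import Pool.Graph.R_seed8.H598R2.Collapse
import Pool.Graph.R_seed8.H632R2.Cogirth

/-!
# NP-hardness of the co-girth in all dimensions
-/

namespace Pool.Agent.KS6_32.CG

open Pool.Agent.NPC
open Pool.Agent.H632R2.Cogirth (graph IsCode RigidInPlane)

/-! ### The plane -/

theorem rigidInPlane_iff {V : Type} [Fintype V] [DecidableEq V] (G : SimpleGraph V) :
    RigidInPlane G ↔ Rigid 2 G := by
  have hn : min ((Fintype.card V).choose 2) (2 * Fintype.card V - 3) =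
      if Fintype.card V ≤ 2 then (Fintype.card V).choose 2
        else 2 * Fintype.card V - (2 + 1).choose 2 := by
    split_ifs with h
    · interval_cases Fintype.card V <;> rfl
    · rw [min_eq_right (Pool.Agent.H632R2.Cogirth.choose_le (by omega))]
      rfl
  unfold RigidInPlane Rigid
  rw [hn]
  rfl

theorem cogirth_plane {V : Type} [Fintype V] [DecidableEq V] (G : SimpleGraph V) :
    Pool.Agent.H632R2.Cogirth.cogirth G = cogirth 2 G := by
  unfold Pool.Agent.H632R2.Cogirth.cogirth cogirth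
  simp_rw [rigidInPlane_iff]

/-! ### Coned graphs -/

/-- the cone over a coded graph: the new vertex is `n` -/
def coneI (I : ℕ × List (ℕ × ℕ)) : ℕ × List (ℕ × ℕ) :=
  (I.1 + 1, I.2 ++ ((List.range (I.2.length + 2)).filter (fun i => decide (i < I.1))).map
    (fun i => (i, I.1)))

theorem coneI_poly : Poly coneI := by
  refine Pool.Agent.NPC.Poly.pair (Pool.Agent.NPC.Poly.add (Poly.fst Poly.id) (Pool.Agent.NPC.Poly.const 1)) ?_
  refine Pool.Agent.NPC.Poly.append (Poly.snd Poly.id) ?_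
  refine Pool.Agent.NPC.Poly.map (F := fun (I : ℕ × List (ℕ × ℕ)) (i : ℕ) => (i, I.1)) ?_ ?_
  · refine Pool.Agent.NPC.Poly.filter (p := fun (I : ℕ × List (ℕ × ℕ)) (i : ℕ) => decide (i < I.1)) ?_ ?_
    · exact UPoly.range ((UPoly.length (Poly.snd Poly.id)).add (UPoly.const 2))
    · exact Poly.decide_lt (Poly.snd Poly.id) (Poly.fst (Poly.fst Poly.id))
  · exact Poly.pair (Poly.snd Poly.id) (Poly.fst (Poly.fst Poly.id))

theorem graph_adj {I : ℕ × List (ℕ × ℕ)} (hI : IsCode I) (u v : Fin I.1) :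
    (graph I).Adj u v ↔ ((u : ℕ), (v : ℕ)) ∈ I.2 ∨ ((v : ℕ), (u : ℕ)) ∈ I.2 := by
  unfold graph
  rw [SimpleGraph.fromRel_adj]
  constructor
  · exact fun h => h.2
  · intro h
    refine ⟨?_, h⟩
    rintro rfl
    rcases h with h | h <;> exact absurd (hI.2.1 _ h).1 (lt_irrefl _)

theorem isCode_coneI {I : ℕ × List (ℕ × ℕ)} (hI : IsCode I) : IsCode (coneI I) := by
  obtain ⟨h1, h2, h3⟩ := hI
  refine ⟨by change 2 ≤ I.1 + 1; omega, ?_, ?_⟩
  · intro e he
    change e ∈ I.2 ++ _ at he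
    change e.1 < e.2 ∧ e.2 < I.1 + 1
    rw [List.mem_append] at he
    rcases he with he | he
    · have := h2 e he
      omega
    · rw [List.mem_map] at he
      obtain ⟨i, hi, rfl⟩ := he
      rw [List.mem_filter, decide_eq_true_eq] at hi
      exact ⟨hi.2, Nat.lt_succ_self _⟩
  · change (I.2 ++ _).Nodup
    rw [List.nodup_append']
    refine ⟨h3, ?_, ?_⟩
    · refine List.Nodup.map ?_ (List.nodup_range.filter _)
      intro a b h
      exact (Prod.mk.inj h).1
    · intro e he he'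
      rw [List.mem_map] at he'
      obtain ⟨i, hi, rfl⟩ := he'
      exact lt_irrefl _ (h2 _ he).2

/-- vertices of the cone -/
def coneEquiv (I : ℕ × List (ℕ × ℕ)) : Option (Fin I.1) ≃ Fin (coneI I).1 :=
  (finSuccEquivLast (n := I.1)).symm

theorem coneEquiv_none (I : ℕ × List (ℕ × ℕ)) : (coneEquiv I none).val = I.1 :=
  congrArg Fin.val (finSuccEquivLast_symm_none (n := I.1))

theorem coneEquiv_some (I : ℕ × List (ℕ × ℕ)) (i : Fin I.1) :
    (coneEquiv I (some i)).val = i.val :=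
  congrArg Fin.val (finSuccEquivLast_symm_some i)

theorem graph_coneI_comap {I : ℕ × List (ℕ × ℕ)} (hI : IsCode I) :
    ((graph (coneI I)).comap (coneEquiv I)).comap some = graph I := by
  ext a b
  rw [SimpleGraph.comap_adj, SimpleGraph.comap_adj, graph_adj (isCode_coneI hI), graph_adj hI,
    coneEquiv_some, coneEquiv_some]
  have key : ∀ x y : Fin I.1, ((x : ℕ), (y : ℕ)) ∈ (coneI I).2 ↔
      ((x : ℕ), (y : ℕ)) ∈ I.2 := by
    intro x y
    change _ ∈ I.2 ++ _ ↔ _
    rw [List.mem_append]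
    constructor
    · rintro (h | h)
      · exact h
      · rw [List.mem_map] at h
        obtain ⟨i, _, h⟩ := h
        have h1 : I.1 = (y : ℕ) := (Prod.mk.inj h).2
        have h2 := y.2
        omega
    · exact Or.inl
  rw [key a b, key b a]

theorem graph_coneI_adj {I : ℕ × List (ℕ × ℕ)} (hI : IsCode I) (hn : I.1 ≤ I.2.length + 2)
    (u : Fin I.1) : ((graph (coneI I)).comap (coneEquiv I)).Adj none (some u) := by
  rw [SimpleGraph.comap_adj, graph_adj (isCode_coneI hI), coneEquiv_some, coneEquiv_none]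
  right
  change _ ∈ I.2 ++ _
  rw [List.mem_append]
  right
  rw [List.mem_map]
  refine ⟨u, ?_, rfl⟩
  rw [List.mem_filter, List.mem_range, decide_eq_true_eq]
  have := u.2
  omega

/-- rigid graphs have enough edges -/
theorem card_le_of_rigid {d : ℕ} {I : ℕ × List (ℕ × ℕ)} (hI : IsCode I) (hd1 : 1 ≤ d)
    (hd : d ≤ I.1) (h : Rigid d (graph I)) : I.1 ≤ I.2.length + 2 := by
  classical
  have hd' : d ≤ Fintype.card (Fin I.1) := by rwa [Fintype.card_fin]
  obtain ⟨q, hq⟩ := exists_generic (Fin I.1) d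
  have h1 := preconnected_of (graph I) hd1 hd' hq ((rigid_iff _ hd').1 h q hq)
  have hpos : 0 < I.1 := by have := hI.1; omega
  have : Nonempty (Fin I.1) := ⟨⟨0, hpos⟩⟩
  have h2 : (graph I).Connected := ⟨h1⟩
  have h3 := h2.card_vert_le_card_edgeSet_add_one
  rw [Nat.card_eq_fintype_card, Fintype.card_fin] at h3
  have h4 : Nat.card (graph I).edgeSet ≤ I.2.length := by
    rw [Nat.card_coe_set_eq]
    have hsub : (graph I).edgeSet ⊆
        ((I.2.map (fun e : ℕ × ℕ => if he : e.1 < I.1 ∧ e.2 < I.1 then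
          s((⟨e.1, he.1⟩ : Fin I.1), (⟨e.2, he.2⟩ : Fin I.1)) else
          s(⟨0, hpos⟩, ⟨0, hpos⟩))).toFinset : Set (Sym2 (Fin I.1))) := by
      intro e he
      induction e with
      | _ u v =>
        rw [SimpleGraph.mem_edgeSet, graph_adj hI] at he
        rw [Finset.mem_coe, List.mem_toFinset, List.mem_map]
        rcases he with he | he
        · exact ⟨_, he, by rw [dif_pos ⟨u.2, v.2⟩]⟩
        · exact ⟨_, he, by rw [dif_pos ⟨v.2, u.2⟩]; exact Sym2.eq_swap⟩
    refine (Set.ncard_le_ncard hsub (Finset.finite_toSet _)).trans ?_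
    rw [Set.ncard_coe_finset]
    refine (List.toFinset_card_le _).trans ?_
    rw [List.length_map]
  omega

/-- the promise in dimension `d` -/
def Prom (d : ℕ) (I : (ℕ × List (ℕ × ℕ)) × ℕ) : Prop :=
  IsCode I.1 ∧ d ≤ I.1.1 ∧ Rigid d (graph I.1)

theorem cone_code {d : ℕ} {I : ℕ × List (ℕ × ℕ)} (hI : IsCode I) (hd1 : 1 ≤ d)
    (hd : d ≤ I.1) (h : Rigid d (graph I)) :
    Rigid (d + 1) (graph (coneI I)) ∧ cogirth (d + 1) (graph (coneI I)) = cogirth d (graph I) := by
  have hn := card_le_of_rigid hI hd1 hd h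
  have h2 : 2 ≤ Fintype.card (Fin I.1) := by rw [Fintype.card_fin]; exact hI.1
  have hd' : d ≤ Fintype.card (Fin I.1) := by rwa [Fintype.card_fin]
  have hC := graph_coneI_adj hI hn
  have e1 := rigid_cone_iff h2 hd1 hd' _ hC
  have e2 := cogirth_cone h2 hd1 hd' _ hC
  rw [graph_coneI_comap hI] at e1 e2
  refine ⟨?_, ?_⟩
  · exact (rigid_comap (coneEquiv I) (graph (coneI I))).1 (e1.2 h)
  · rw [← e2]
    exact (cogirth_comap (coneEquiv I) (graph (coneI I))).symm

theorem hardPr_dim (m : ℕ) : HardPr (Prom (m + 2))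
    (fun I : (ℕ × List (ℕ × ℕ)) × ℕ => cogirth (m + 2) (graph I.1) ≤ I.2) := by
  induction m with
  | zero =>
    intro L hL
    obtain ⟨f, hf, hpr, hfL⟩ := Pool.Agent.NPC.H598R2.hardPr_core L hL
    refine ⟨f, hf, fun x => ?_, fun x => ?_⟩
    · obtain ⟨h1, h2⟩ := hpr x
      refine ⟨h1, h1.1, ?_⟩
      exact (rigidInPlane_iff _).1 ((Pool.Agent.H632R2.Cogirth.rigidInPlane_graph h1).2 h2)
    · rw [hfL x]
      change _ ↔ cogirth 2 _ ≤ _
      rw [← cogirth_plane]
      exact (Pool.Agent.H632R2.Cogirth.cogirth_graph (hpr x).1 _).symm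
  | succ m ih =>
    refine ih.trans (f := fun I => (coneI I.1, I.2)) ?_ ?_ ?_
    · exact Poly.pair (coneI_poly.comp (Poly.fst Poly.id)) (Poly.snd Poly.id)
    · rintro ⟨I, k⟩ ⟨h1, h2, h3⟩
      refine ⟨isCode_coneI h1, ?_, (cone_code h1 (by omega) h2 h3).1⟩
      change m + 1 + 2 ≤ I.1 + 1
      change m + 2 ≤ I.1 at h2
      omega
    · rintro ⟨I, k⟩ ⟨h1, h2, h3⟩
      change cogirth (m + 2) (graph I) ≤ k ↔ cogirth (m + 2 + 1) (graph (coneI I)) ≤ k
      rw [(cone_code h1 (by omega) h2 h3).2]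

end Pool.Agent.KS6_32.CG
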